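import Mathlib

/-!
# Vectors with given supports and sum zero

Let `K` be a field of characteristic two with more than two elements. Natural numbers `m i ≤ n`,
`i ∈ I`, none of which is larger than the sum of the others, are the support sizes of vectors
`ψ i ∈ K ^ n` with sum zero; one of the vectors can be prescribed.
-/

set_option autoImplicit false
set_option linter.unusedSectionVars false

open Finset

namespace Pool.Agent.H281G

variable {ι : Type} [DecidableEq ι]

/-- covering many elements of `R` by sets of given sizes -/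
theorem cover {ρ : Type} [DecidableEq ρ] (R : Finset ρ) (m : ι → ℕ) (I : Finset ι)
    (hm : ∀ i ∈ I, m i ≤ R.card) : ∃ J : ι → Finset ρ, (∀ i ∈ I, J i ⊆ R ∧ (J i).card = m i) ∧
      (R ⊆ I.biUnion J ∨ ∑ i ∈ I, m i ≤ (I.biUnion J).card) := by
  classical
  induction I using Finset.induction_on with
  | empty => exact ⟨fun _ => ∅, by simp, Or.inr (by simp)⟩
  | insert k I hk ih =>
    obtain ⟨J, h1, h2⟩ := ih (fun i hi => hm i (mem_insert_of_mem hi))
    have hmk := hm k (mem_insert_self _ _)
    have hU : I.biUnion J ⊆ R := by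
      rw [biUnion_subset]
      exact fun i hi => (h1 i hi).1
    have key : ∀ T : Finset ρ, T ⊆ R → T.card = m k →
        (R ⊆ I.biUnion J ∪ T ∨ ∑ i ∈ insert k I, m i ≤ (I.biUnion J ∪ T).card) →
        ∃ J' : ι → Finset ρ, (∀ i ∈ insert k I, J' i ⊆ R ∧ (J' i).card = m i) ∧
          (R ⊆ (insert k I).biUnion J' ∨
            ∑ i ∈ insert k I, m i ≤ ((insert k I).biUnion J').card) := by
      intro T hT1 hT2 hT3
      have h3 : (insert k I).biUnion (Function.update J k T) = I.biUnion J ∪ T := by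
        rw [biUnion_insert, Function.update_self, union_comm]
        congr 1
        refine biUnion_congr rfl fun i hi => ?_
        rw [Function.update_of_ne]
        rintro rfl
        exact hk hi
      refine ⟨Function.update J k T, ?_, ?_⟩
      · intro i hi
        by_cases hik : i = k
        · rw [hik, Function.update_self]; exact ⟨hT1, hT2⟩
        · rw [Function.update_of_ne hik]
          exact h1 i ((mem_insert.1 hi).resolve_left hik)
      · rw [h3]; exact hT3
    by_cases hcase : m k ≤ (R \ I.biUnion J).card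
    · obtain ⟨T, hT1, hT2⟩ := exists_subset_card_eq hcase
      refine key T (hT1.trans sdiff_subset) hT2 ?_
      rcases h2 with h2 | h2
      · exact Or.inl (h2.trans subset_union_left)
      · right
        rw [card_union_of_disjoint, hT2, sum_insert hk]
        · omega
        · rw [disjoint_right]
          intro x hx
          exact (mem_sdiff.1 (hT1 hx)).2
    · obtain ⟨T, hT1, hT2, hT3⟩ := exists_subsuperset_card_eq
        (sdiff_subset (s := R) (t := I.biUnion J)) (by omega : (R \ I.biUnion J).card ≤ m k) hmk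
      refine key T hT2 hT3 (Or.inl ?_)
      intro x hx
      rw [mem_union]
      by_cases h : x ∈ I.biUnion J
      · exact Or.inl h
      · exact Or.inr (hT1 (mem_sdiff.2 ⟨hx, h⟩))

/-- sets of given sizes such that no element lies in exactly one of them -/
theorem sets (n : ℕ) (m : ι → ℕ) (I : Finset ι) (hm : ∀ i ∈ I, m i ≤ n)
    (hp : ∀ i ∈ I, 2 * m i ≤ ∑ k ∈ I, m k) :
    ∃ J : ι → Finset (Fin n), (∀ i ∈ I, (J i).card = m i) ∧
      ∀ j, (I.filter fun i => j ∈ J i).card ≠ 1 := by
  classical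
  by_cases hI : I.Nonempty
  · obtain ⟨i0, hi0, hmax⟩ := exists_max_image I m hI
    obtain ⟨R, _, hR⟩ := exists_subset_card_eq
      (s := (univ : Finset (Fin n))) (n := m i0) (by rw [card_univ, Fintype.card_fin]; exact hm i0 hi0)
    obtain ⟨J, hJ1, hJ2⟩ := cover R m (I.erase i0) (fun i hi => by
      rw [hR]; exact hmax i (mem_of_mem_erase hi))
    have hcov : R ⊆ (I.erase i0).biUnion J := by
      rcases hJ2 with h | h
      · exact h
      · have h1 := add_sum_erase I m hi0
        have h2 := hp i0 hi0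
        have h3 : (I.erase i0).biUnion J ⊆ R := by
          rw [biUnion_subset]
          exact fun i hi => (hJ1 i hi).1
        have h4 := card_le_card h3
        exact (eq_of_subset_of_card_le h3 (by omega)).symm.subset
    refine ⟨Function.update J i0 R, ?_, ?_⟩
    · intro i hi
      by_cases h : i = i0
      · rw [h, Function.update_self]; exact hR
      · rw [Function.update_of_ne h]
        exact (hJ1 i (mem_erase.2 ⟨h, hi⟩)).2
    · intro j hcard
      obtain ⟨a, ha⟩ := card_eq_one.1 hcard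
      have hj : j ∈ R := by
        have h1 : a ∈ I.filter fun i => j ∈ Function.update J i0 R i := by
          rw [ha]; exact mem_singleton_self _
        rw [mem_filter] at h1
        by_cases h : a = i0
        · rw [h, Function.update_self] at h1; exact h1.2
        · rw [Function.update_of_ne h] at h1
          exact (hJ1 a (mem_erase.2 ⟨h, h1.1⟩)).1 h1.2
      have h2 := hcov hj
      rw [mem_biUnion] at h2
      obtain ⟨b, hb1, hb2⟩ := h2
      rw [mem_erase] at hb1
      have h3 : b ∈ I.filter fun i => j ∈ Function.update J i0 R i := by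
        rw [mem_filter, Function.update_of_ne hb1.1]
        exact ⟨hb1.2, hb2⟩
      have h4 : i0 ∈ I.filter fun i => j ∈ Function.update J i0 R i := by
        rw [mem_filter, Function.update_self]
        exact ⟨hi0, hj⟩
      rw [ha, mem_singleton] at h3 h4
      exact hb1.1 (h3.trans h4.symm)
  · rw [not_nonempty_iff_eq_empty] at hI
    rw [hI]
    exact ⟨fun _ => ∅, by simp, by simp⟩

variable {K : Type} [Field K] [DecidableEq K]

/-- at least two nonzero values with given sum -/
theorem values (w : K) (hw0 : w ≠ 0) (hw1 : w ≠ 1) (N : ℕ) : ∀ (T : Finset ι), T.card = N + 2 →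
    ∀ q : K, ∃ c : ι → K, (∀ i ∈ T, c i ≠ 0) ∧ ∑ i ∈ T, c i = q := by
  classical
  induction N with
  | zero =>
    intro T hT q
    obtain ⟨a, b, hab, rfl⟩ := card_eq_two.1 (by omega : T.card = 2)
    have hx : ∃ x : K, x ≠ 0 ∧ x ≠ q := by
      by_cases h : q = 1
      · exact ⟨w, hw0, by rw [h]; exact hw1⟩
      · exact ⟨1, one_ne_zero, fun h1 => h h1.symm⟩
    obtain ⟨x, hx0, hxq⟩ := hx
    refine ⟨fun i => if i = a then x else q - x, ?_, ?_⟩
    · intro i hi
      by_cases h : i = a
      · simp only [h, if_true]; exact hx0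
      · simp only [h, if_false]; exact sub_ne_zero.2 (Ne.symm hxq)
    · rw [sum_pair hab, if_pos rfl, if_neg (Ne.symm hab)]
      ring
  | succ N ih =>
    intro T hT q
    obtain ⟨a, T', haT, rfl, hT'⟩ := card_eq_succ.1 hT
    obtain ⟨c, hc1, hc2⟩ := ih T' (by omega) (q - 1)
    refine ⟨fun i => if i = a then 1 else c i, ?_, ?_⟩
    · intro i hi
      by_cases h : i = a
      · simp only [h, if_true]; exact one_ne_zero
      · simp only [h, if_false]
        exact hc1 i ((mem_insert.1 hi).resolve_left h)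
    · rw [sum_insert haT, if_pos rfl]
      have h1 : ∑ i ∈ T', (if i = a then 1 else c i) = ∑ i ∈ T', c i := by
        refine sum_congr rfl fun i hi => ?_
        rw [if_neg]
        rintro rfl
        exact haT hi
      rw [h1, hc2]
      ring

/-- vectors with given support sizes and sum zero -/
theorem vectors (w : K) (hw0 : w ≠ 0) (hw1 : w ≠ 1) (n : ℕ) (m : ι → ℕ) (I : Finset ι)
    (hm : ∀ i ∈ I, m i ≤ n) (hp : ∀ i ∈ I, 2 * m i ≤ ∑ k ∈ I, m k) :
    ∃ ψ : ι → Fin n → K, (∀ i ∈ I, (univ.filter fun j => ψ i j ≠ 0).card = m i) ∧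
      ∀ j, ∑ i ∈ I, ψ i j = 0 := by
  classical
  obtain ⟨J, hJ1, hJ2⟩ := sets n m I hm hp
  have hval : ∀ j : Fin n, ∃ c : ι → K, (∀ i ∈ I, (c i ≠ 0 ↔ j ∈ J i)) ∧ ∑ i ∈ I, c i = 0 := by
    intro j
    obtain ⟨T, hT⟩ : ∃ T, T = I.filter fun i => j ∈ J i := ⟨_, rfl⟩
    have h1 := hJ2 j
    rw [← hT] at h1
    have hex : ∃ c : ι → K, (∀ i ∈ T, c i ≠ 0) ∧ ∑ i ∈ T, c i = 0 := by
      rcases Nat.eq_zero_or_pos T.card with h2 | h2
      · rw [card_eq_zero] at h2
        rw [h2]
        exact ⟨fun _ => 0, by simp, by simp⟩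
      · exact values w hw0 hw1 (T.card - 2) T (by omega) 0
    obtain ⟨c, hc1, hc2⟩ := hex
    refine ⟨fun i => if j ∈ J i then c i else 0, ?_, ?_⟩
    · intro i hi
      by_cases h : j ∈ J i
      · simp only [h, if_true, iff_true]
        exact hc1 i (by rw [hT, mem_filter]; exact ⟨hi, h⟩)
      · simp [h]
    · rw [← sum_filter, ← hT]
      exact hc2
  choose c hc1 hc2 using hval
  refine ⟨fun i j => c j i, ?_, fun j => hc2 j⟩
  intro i hi
  rw [← hJ1 i hi]
  congr 1
  ext j
  rw [mem_filter]
  exact ⟨fun h => (hc1 j i hi).1 h.2, fun h => ⟨mem_univ _, (hc1 j i hi).2 h⟩⟩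

/-- vectors with given support sizes and sum zero, one of them prescribed -/
theorem vectors_at (w : K) (hw0 : w ≠ 0) (hw1 : w ≠ 1) (n : ℕ) (m : ι → ℕ) (I : Finset ι)
    (hm : ∀ i ∈ I, m i ≤ n) (hp : ∀ i ∈ I, 2 * m i ≤ ∑ k ∈ I, m k) (i0 : ι) (hi0 : i0 ∈ I)
    (ψ0 : Fin n → K) (hψ0 : (univ.filter fun j => ψ0 j ≠ 0).card = m i0) :
    ∃ ψ : ι → Fin n → K, (∀ i ∈ I, (univ.filter fun j => ψ i j ≠ 0).card = m i) ∧
      (∀ j, ∑ i ∈ I, ψ i j = 0) ∧ ψ i0 = ψ0 := by
  classical
  obtain ⟨ψ, h1, h2⟩ := vectors w hw0 hw1 n m I hm hp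
  have hcard : Fintype.card {j : Fin n // ψ0 j ≠ 0} = Fintype.card {j : Fin n // ψ i0 j ≠ 0} := by
    rw [Fintype.card_subtype, Fintype.card_subtype, hψ0, h1 i0 hi0]
  obtain ⟨e⟩ := Fintype.card_eq.1 hcard
  obtain ⟨σ, hσ⟩ : ∃ σ : Equiv.Perm (Fin n), ∀ j, ψ0 j ≠ 0 ↔ ψ i0 (σ j) ≠ 0 := by
    refine ⟨e.extendSubtype, fun j => ⟨fun h => e.extendSubtype_mem j h, fun h => ?_⟩⟩
    intro hcon
    exact e.extendSubtype_not_mem j (fun h' => h' hcon) h
  have hnz : ∀ j, (if ψ i0 (σ j) = 0 then (1 : K) else ψ0 j / ψ i0 (σ j)) ≠ 0 := by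
    intro j
    by_cases h : ψ i0 (σ j) = 0
    · rw [if_pos h]; exact one_ne_zero
    · rw [if_neg h]
      exact div_ne_zero ((hσ j).2 h) h
  refine ⟨fun i j => (if ψ i0 (σ j) = 0 then 1 else ψ0 j / ψ i0 (σ j)) * ψ i (σ j), ?_, ?_, ?_⟩
  · intro i hi
    rw [← h1 i hi]
    refine card_bij (fun j _ => σ j) ?_ ?_ ?_
    · intro j hj
      rw [mem_filter] at hj ⊢
      exact ⟨mem_univ _, fun h => hj.2 (by simp only [h, mul_zero])⟩
    · intro a _ b _ hab
      exact σ.injective hab
    · intro b hb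
      rw [mem_filter] at hb
      refine ⟨σ.symm b, ?_, σ.apply_symm_apply b⟩
      rw [mem_filter]
      refine ⟨mem_univ _, mul_ne_zero (hnz _) ?_⟩
      rw [σ.apply_symm_apply]
      exact hb.2
  · intro j
    rw [← mul_sum, h2, mul_zero]
  · funext j
    by_cases h : ψ i0 (σ j) = 0
    · have h3 : ψ0 j = 0 := by
        by_contra h4
        exact (hσ j).1 h4 h
      simp only [h, mul_zero, h3]
    · simp only [if_neg h]
      rw [div_mul_cancel₀ _ h]

end Pool.Agent.H281G
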