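import Pool.Agent.H281G.Level
import Pool.Agent.H281G.Vertex

/-!
# Circuit covers of weights which are constant on a circuit that meets all circuits

Let `C` be a circuit of a finite loopless multigraph which has a vertex in common with every circuit
(the graph without the vertices of `C` is a forest). A weight with the constant value `n` on `C` and
even values at most `2 n` off `C`, such that at every vertex off `C` no edge is heavier than the
other edges together, is covered by circuits.
-/

set_option autoImplicit false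
set_option linter.unusedSectionVars false

open Finset

namespace Pool.Agent.H281G

open Pool.Agent.Helper347.Sab
open Pool.Agent.W831.HI (decompose_ev exists_field)

variable {V E : Type} [Fintype V] [DecidableEq V] [Fintype E] [DecidableEq E]

/-- functions with given support sizes and Kirchhoff's law on a set inducing a forest -/
theorem flow_exists {K : Type} [Field K] [DecidableEq K] (w : K) (hw0 : w ≠ 0) (hw1 : w ≠ 1)
    (G : MGraph V E) (off : V → Prop)
    (hdeg : ∀ U : Finset V, U.Nonempty → (∀ v ∈ U, off v) → ∃ v ∈ U,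
      (univ.filter fun e => v ∈ G.ends e ∧ ∃ u ∈ U, u ≠ v ∧ u ∈ G.ends e).card ≤ 1)
    (n : ℕ) (m : E → ℕ) (hm : ∀ e, m e ≤ n)
    (hp : ∀ v, off v → ∀ e, v ∈ G.ends e →
      2 * m e ≤ ∑ f ∈ univ.filter (fun f => v ∈ G.ends f), m f) (N : ℕ) :
    ∀ U : Finset V, U.card = N → (∀ v ∈ U, off v) →
      ∃ φ : E → Fin n → K, (∀ e, (univ.filter fun j => φ e j ≠ 0).card = m e) ∧
        ∀ v ∈ U, ∀ j, ∑ e, (if v ∈ G.ends e then φ e j else 0) = 0 := by
  classical
  induction N with
  | zero =>
    intro U hU _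
    rw [card_eq_zero] at hU
    have h : ∀ e, ∃ T : Finset (Fin n), T.card = m e := by
      intro e
      obtain ⟨T, _, hT⟩ := exists_subset_card_eq (s := (univ : Finset (Fin n))) (n := m e)
        (by rw [card_univ, Fintype.card_fin]; exact hm e)
      exact ⟨T, hT⟩
    choose T hT using h
    refine ⟨fun e j => if j ∈ T e then 1 else 0, fun e => ?_, ?_⟩
    · rw [← hT e]
      congr 1
      ext j
      simp
    · rw [hU]
      intro v hv
      exact absurd hv (notMem_empty v)
  | succ N ih =>
    intro U hU hoff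
    obtain ⟨v, hv, hcard⟩ := hdeg U (card_pos.1 (by omega)) hoff
    obtain ⟨φ, hφ1, hφ2⟩ := ih (U.erase v) (by rw [card_erase_of_mem hv]; omega)
      (fun u hu => hoff u (mem_of_mem_erase hu))
    obtain ⟨I, hI⟩ : ∃ I, I = univ.filter fun e => v ∈ G.ends e := ⟨_, rfl⟩
    have hmemI : ∀ e, e ∈ I ↔ v ∈ G.ends e := by
      intro e; rw [hI]; simp
    by_cases hne : I.Nonempty
    · obtain ⟨i0, hi0, huniq⟩ : ∃ i0 ∈ I, ∀ e, v ∈ G.ends e →
          (∃ u ∈ U, u ≠ v ∧ u ∈ G.ends e) → e = i0 := by
        rcases (univ.filter fun e => v ∈ G.ends e ∧ ∃ u ∈ U, u ≠ v ∧ u ∈ G.ends e).eq_empty_or_nonempty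
          with h | ⟨i0, h⟩
        · obtain ⟨i0, hi0⟩ := hne
          refine ⟨i0, hi0, fun e h1 h2 => ?_⟩
          have h3 : e ∈ univ.filter fun e => v ∈ G.ends e ∧ ∃ u ∈ U, u ≠ v ∧ u ∈ G.ends e := by
            rw [mem_filter]; exact ⟨mem_univ _, h1, h2⟩
          rw [h] at h3
          exact absurd h3 (notMem_empty _)
        · refine ⟨i0, (hmemI _).2 (mem_filter.1 h).2.1, fun e h1 h2 => ?_⟩
          exact card_le_one.1 hcard e (by rw [mem_filter]; exact ⟨mem_univ _, h1, h2⟩) i0 h
      obtain ⟨ψ, hψ1, hψ2, hψ3⟩ := vectors_at w hw0 hw1 n m I (fun i _ => hm i)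
        (fun i hi => by
          rw [hI]
          exact hp v (hoff v hv) i ((hmemI i).1 hi)) i0 hi0 (φ i0) (hφ1 i0)
      refine ⟨fun e => if v ∈ G.ends e then ψ e else φ e, fun e => ?_, fun u hu j => ?_⟩
      · by_cases h : v ∈ G.ends e
        · simp only [if_pos h]
          exact hψ1 e ((hmemI e).2 h)
        · simp only [if_neg h]
          exact hφ1 e
      · by_cases huv : u = v
        · rw [huv]
          have h1 : ∑ e, (if v ∈ G.ends e then
              (if v ∈ G.ends e then ψ e else φ e) j else 0) = ∑ e ∈ I, ψ e j := by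
            rw [hI, sum_filter]
            refine sum_congr rfl fun e _ => ?_
            by_cases h : v ∈ G.ends e
            · simp only [if_pos h]
            · simp only [if_neg h]
          rw [h1]
          exact hψ2 j
        · have h1 := hφ2 u (mem_erase.2 ⟨huv, hu⟩) j
          refine Eq.trans (sum_congr rfl fun e _ => ?_) h1
          by_cases h : u ∈ G.ends e
          · rw [if_pos h, if_pos h]
            by_cases h2 : v ∈ G.ends e
            · have h3 := huniq e h2 ⟨u, hu, huv, h⟩
              simp only [if_pos h2]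
              rw [h3, hψ3]
            · simp only [if_neg h2]
          · rw [if_neg h, if_neg h]
    · refine ⟨φ, hφ1, fun u hu j => ?_⟩
      by_cases huv : u = v
      · rw [huv]
        refine sum_eq_zero fun e _ => ?_
        rw [if_neg]
        intro h
        exact hne ⟨e, (hmemI e).2 h⟩
      · exact hφ2 u (mem_erase.2 ⟨huv, hu⟩) j

/-- the handshake lemma for edges inside `U` -/
theorem handshake (G : MGraph V E) (U : Finset V) (X : Finset E)
    (hX : ∀ e ∈ X, ∀ v ∈ G.ends e, v ∈ U) : ∑ v ∈ U, dg G X v = 2 * X.card := by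
  have h1 : ∑ v ∈ U, dg G X v = ∑ v, dg G X v := by
    refine sum_subset (subset_univ _) fun v _ hv => ?_
    unfold dg
    rw [card_eq_zero, filter_eq_empty_iff]
    exact fun e he h => hv (hX e he v h)
  rw [h1]
  exact Pool.Agent.W614.SC.sum_dg G X

/-- a set of vertices without circuits contains a vertex with at most one edge to the set -/
theorem degenerate (G : MGraph V E) (C : Finset E)
    (hmeet : ∀ D, IsCircuit G D → ∃ v, dg G D v ≠ 0 ∧ dg G C v ≠ 0) (U : Finset V)
    (hU : U.Nonempty) (hoff : ∀ v ∈ U, dg G C v = 0) : ∃ v ∈ U,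
      (univ.filter fun e => v ∈ G.ends e ∧ ∃ u ∈ U, u ≠ v ∧ u ∈ G.ends e).card ≤ 1 := by
  classical
  by_contra hcon
  push Not at hcon
  obtain ⟨K, hK⟩ : ∃ K, K = univ.filter fun e => ∀ u ∈ G.ends e, u ∈ U := ⟨_, rfl⟩
  have hKm : ∀ e, e ∈ K ↔ ∀ u ∈ G.ends e, u ∈ U := by
    intro e; rw [hK]; simp
  have hdegK : ∀ v ∈ U, 2 ≤ dg G K v := by
    intro v hv
    refine le_trans (hcon v hv) (card_le_card ?_)
    intro e he
    rw [mem_filter] at he ⊢
    obtain ⟨_, h1, u, h2, h3, h4⟩ := he
    refine ⟨(hKm e).2 fun x hx => ?_, h1⟩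
    have h5 : G.ends e = s(v, u) := (Sym2.mem_and_mem_iff (Ne.symm h3)).1 ⟨h1, h4⟩
    rw [h5, Sym2.mem_iff] at hx
    rcases hx with rfl | rfl
    · exact hv
    · exact h2
  have hcardK : U.card ≤ K.card := by
    have h1 := handshake G U K (fun e he => (hKm e).1 he)
    have h2 : U.card * 2 ≤ ∑ v ∈ U, dg G K v := by
      rw [← smul_eq_mul]
      exact card_nsmul_le_sum U _ 2 hdegK
    omega
  obtain ⟨u0, hu0⟩ := hU
  obtain ⟨X, hX, Y, hY, hXY, hf⟩ := exists_ne_map_eq_of_card_lt_of_maps_to
    (s := K.powerset) (t := (U.erase u0).powerset)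
    (f := fun X => (U.erase u0).filter fun v => Odd (dg G X v)) (by
      rw [card_powerset, card_powerset, card_erase_of_mem hu0]
      have : 0 < U.card := card_pos.2 ⟨u0, hu0⟩
      exact Nat.pow_lt_pow_right (by norm_num) (by omega))
    (fun X _ => by
      rw [mem_coe, mem_powerset]
      exact filter_subset _ _)
  rw [mem_powerset] at hX hY
  have hZK : symmDiff X Y ⊆ K := by
    intro e he
    rw [mem_symmDiff] at he
    rcases he with h | h
    · exact hX h.1
    · exact hY h.1
  have hev0 : ∀ v, v ≠ u0 → Even (dg G (symmDiff X Y) v) := by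
    intro v hv
    by_cases hvU : v ∈ U
    · have h1 := dg_symmDiff G X Y v
      have h2 : Odd (dg G X v) ↔ Odd (dg G Y v) := by
        have h3 : v ∈ (U.erase u0).filter (fun v => Odd (dg G X v)) ↔
            v ∈ (U.erase u0).filter (fun v => Odd (dg G Y v)) := by rw [hf]
        rw [mem_filter, mem_filter, mem_erase] at h3
        tauto
      rw [Nat.even_iff]
      rw [Nat.odd_iff, Nat.odd_iff] at h2
      omega
    · have h1 : dg G (symmDiff X Y) v = 0 := by
        unfold dg
        rw [card_eq_zero, filter_eq_empty_iff]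
        exact fun e he h => hvU ((hKm e).1 (hZK he) v h)
      rw [h1]
      exact ⟨0, rfl⟩
  have hev : Ev G (symmDiff X Y) := by
    intro v
    by_cases hv : v = u0
    · rw [hv]
      have h1 := handshake G U (symmDiff X Y) (fun e he => (hKm e).1 (hZK he))
      rw [← add_sum_erase U _ hu0] at h1
      have h2 : Even (∑ x ∈ U.erase u0, dg G (symmDiff X Y) x) := by
        exact even_sum _ fun x hx => hev0 x (ne_of_mem_erase hx)
      rw [Nat.even_iff] at h2 ⊢
      omega
    · exact hev0 v hv
  have hne : (symmDiff X Y).Nonempty := by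
    rw [nonempty_iff_ne_empty]
    intro h
    exact hXY (symmDiff_eq_bot.1 h)
  obtain ⟨e, he⟩ := hne
  obtain ⟨F, hF1, hF2⟩ := decompose_ev G _ hev
  have h3 : 0 < F.countP (fun X => e ∈ X) := by
    rw [hF2, if_pos he]; norm_num
  rw [Multiset.countP_pos] at h3
  obtain ⟨D, hD, heD⟩ := h3
  have hDZ : D ⊆ symmDiff X Y := by
    intro f hf'
    by_contra hcon'
    have h4 : 0 < F.countP (fun X => f ∈ X) := by
      rw [Multiset.countP_pos]
      exact ⟨D, hD, hf'⟩
    rw [hF2, if_neg hcon'] at h4
    omega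
  obtain ⟨v, hv1, hv2⟩ := hmeet D (hF1 D hD)
  obtain ⟨g, hg, hgv⟩ := exists_mem_of_dg_pos (G := G) (X := D) (v := v) (by omega)
  exact hv2 (hoff v ((hKm g).1 (hZK (hDZ hg)) v hgv))

/-- **The main theorem.** -/
theorem forest_cover (G : MGraph V E) (C : Finset E) (hC : IsCircuit G C)
    (hmeet : ∀ D, IsCircuit G D → ∃ v, dg G D v ≠ 0 ∧ dg G C v ≠ 0) (n : ℕ) (p : E → ℕ)
    (hpC : ∀ e ∈ C, p e = n) (hev : ∀ e, e ∉ C → Even (p e)) (hle : ∀ e, e ∉ C → p e ≤ 2 * n)
    (hvert : ∀ v, dg G C v = 0 → ∀ e, v ∈ G.ends e →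
      2 * p e ≤ ∑ f ∈ univ.filter (fun f => v ∈ G.ends f), p f) :
    ∃ F : Multiset (Finset E), (∀ X ∈ F, IsCircuit G X) ∧
      ∀ e, F.countP (fun X => e ∈ X) = p e := by
  classical
  obtain ⟨K, _, _, _, _, _, ⟨w, hw0, hw1, _⟩, r, q, hrq⟩ := exists_field
  have hnotC : ∀ v, dg G C v = 0 → ∀ e, v ∈ G.ends e → e ∉ C := by
    intro v hv e he h
    have := dg_pos_of_mem (G := G) h he
    omega
  obtain ⟨m, hm⟩ : ∃ m : E → ℕ, m = fun e => if e ∈ C then 0 else p e / 2 := ⟨_, rfl⟩
  have hmoff : ∀ e, e ∉ C → 2 * m e = p e := by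
    intro e he
    have h1 := hev e he
    rw [Nat.even_iff] at h1
    rw [hm]
    simp only [if_neg he]
    omega
  obtain ⟨φ, hφ1, hφ2⟩ := flow_exists w hw0 hw1 G (fun v => dg G C v = 0)
    (degenerate G C hmeet) n m (fun e => by
      by_cases he : e ∈ C
      · rw [hm]; simp [he]
      · have h1 := hmoff e he
        have h2 := hle e he
        omega)
    (fun v hv e he => by
      have h1 := hvert v hv e he
      have h2 := hmoff e (hnotC v hv e he)
      have h3 : ∑ f ∈ univ.filter (fun f => v ∈ G.ends f), p f =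
          2 * ∑ f ∈ univ.filter (fun f => v ∈ G.ends f), m f := by
        rw [mul_sum]
        refine sum_congr rfl fun f hf => ?_
        exact (hmoff f (hnotC v hv f (mem_filter.1 hf).2)).symm
      omega)
    _ (univ.filter fun v => dg G C v = 0) rfl (fun v hv => (mem_filter.1 hv).2)
  refine of_flow r q hrq G C hC n φ (fun v hv j => hφ2 v (by rw [mem_filter]; exact ⟨mem_univ _, hv⟩) j)
    p hpC fun e he => ?_
  rw [hφ1 e, hmoff e he]

end Pool.Agent.H281G
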