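import Pool.Agent.V11198.CdcUnion

/-!
# Circuit covers from several circuits-and-two-even-subgraphs double covers

`level`: if `C` is a circuit and `A`, `B` are even subgraphs of a finite loopless multigraph, then
some circuits cover every edge of `C` once, every other edge of `A ∪ B` twice and no other edge.
`of_flow`: the sum over several such covers, in terms of a function with values in `K ^ n`, `K` a
field with four elements, which satisfies Kirchhoff's law off `C`.
-/

set_option autoImplicit false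
set_option linter.unusedSectionVars false

open Finset

namespace Pool.Agent.H281G

open Pool.Agent.Helper347.Sab
open Pool.Agent.W831.HI (circ_complete dg_cast)
open Pool.Agent.V11198.Cdc (cdc_of_union)

variable {V E : Type} [Fintype V] [DecidableEq V] [Fintype E] [DecidableEq E]

/-- the subgraph with edge set `K` -/
def sub (G : MGraph V E) (K : Finset E) : MGraph V {e // e ∈ K} :=
  ⟨fun e => G.ends e.1, fun e => G.loopless e.1⟩

/-- the inclusion of the edges -/
def inc (K : Finset E) : {e // e ∈ K} ↪ E := Function.Embedding.subtype _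

theorem dg_sub (G : MGraph V E) (K : Finset E) (X : Finset {e // e ∈ K}) (v : V) :
    dg (sub G K) X v = dg G (X.map (inc K)) v := by
  unfold dg
  rw [filter_map, card_map]
  rfl

theorem circ_map (G : MGraph V E) (K : Finset E) (X : Finset {e // e ∈ K})
    (h : IsCircuit (sub G K) X) : IsCircuit G (X.map (inc K)) := by
  refine ⟨h.1.map, fun v => ?_, ?_⟩
  · rw [← dg_sub]; exact h.2.1 v
  · intro e he f hf
    rw [mem_map] at he hf
    obtain ⟨e', he', rfl⟩ := he
    obtain ⟨f', hf', rfl⟩ := hf
    refine Relation.ReflTransGen.lift (inc K) ?_ _ _ (h.2.2 e' he' f' hf')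
    rintro a b ⟨h1, v, h2, h3⟩
    exact ⟨mem_map_of_mem _ h1, v, h2, h3⟩

theorem subtype_map (K X : Finset E) (h : X ⊆ K) :
    (X.subtype (· ∈ K)).map (inc K) = X := by
  ext e
  rw [mem_map]
  constructor
  · rintro ⟨a, ha, rfl⟩
    exact mem_subtype.1 ha
  · intro he
    exact ⟨⟨e, h he⟩, mem_subtype.2 he, rfl⟩

theorem circ_sub (G : MGraph V E) (K C : Finset E) (hCK : C ⊆ K) (h : IsCircuit G C) :
    IsCircuit (sub G K) (C.subtype (· ∈ K)) := by
  refine ⟨?_, fun v => ?_, ?_⟩
  · obtain ⟨e, he⟩ := h.1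
    exact ⟨⟨e, hCK he⟩, mem_subtype.2 he⟩
  · rw [dg_sub, subtype_map K C hCK]; exact h.2.1 v
  · intro e he f hf
    have he' := mem_subtype.1 he
    have hf' := mem_subtype.1 hf
    have key : ∀ g : E, Relation.ReflTransGen (fun a b => b ∈ C ∧ Touch G a b) e.1 g →
        ∀ hg : g ∈ K, Relation.ReflTransGen
          (fun a b => b ∈ C.subtype (· ∈ K) ∧ Touch (sub G K) a b) e ⟨g, hg⟩ := by
      intro g hg
      induction hg with
      | refl => intro _; exact Relation.ReflTransGen.refl
      | @tail b c hb hc ih =>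
        intro hcK
        have hbK : b ∈ K := by
          rcases Relation.ReflTransGen.cases_tail hb with h1 | ⟨d, _, h2⟩
          · rw [h1]; exact e.2
          · exact hCK h2.1
        refine (ih hbK).tail ⟨mem_subtype.2 hc.1, ?_⟩
        obtain ⟨v, h2, h3⟩ := hc.2
        exact ⟨v, h2, h3⟩
    exact key f.1 (h.2.2 e.1 he' f.1 hf') f.2

theorem ev_sub (G : MGraph V E) (K X : Finset E) (hXK : X ⊆ K) (h : Ev G X) :
    Ev (sub G K) (X.subtype (· ∈ K)) := by
  intro v
  rw [dg_sub, subtype_map K X hXK]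
  exact h v

/-- one level: the circuit once, the other edges of the two even subgraphs twice -/
theorem level (G : MGraph V E) (C A B : Finset E) (hC : IsCircuit G C) (hA : Ev G A)
    (hB : Ev G B) : ∃ F : Multiset (Finset E), (∀ X ∈ F, IsCircuit G X) ∧
      ∀ e, F.countP (fun X => e ∈ X) = if e ∈ C then 1 else if e ∈ A ∨ e ∈ B then 2 else 0 := by
  classical
  obtain ⟨K, hK⟩ : ∃ K, K = C ∪ (A ∪ B) := ⟨_, rfl⟩
  have hCK : C ⊆ K := by rw [hK]; exact subset_union_left
  have hAK : A ⊆ K := by rw [hK]; exact subset_union_left.trans subset_union_right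
  have hBK : B ⊆ K := by rw [hK]; exact subset_union_right.trans subset_union_right
  obtain ⟨F, hF, hCF⟩ := cdc_of_union (sub G K) (C.subtype (· ∈ K)) (A.subtype (· ∈ K))
    (B.subtype (· ∈ K)) (circ_sub G K C hCK hC) (ev_sub G K A hAK hA) (ev_sub G K B hBK hB)
    (by
      rintro ⟨e, he⟩ heC
      rw [mem_subtype] at heC
      rw [mem_subtype, mem_subtype]
      rw [hK, mem_union, mem_union] at he
      tauto)
  refine ⟨(F.erase (C.subtype (· ∈ K))).map (fun X => X.map (inc K)), ?_, fun e => ?_⟩
  · intro X hX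
    rw [Multiset.mem_map] at hX
    obtain ⟨Y, hY, rfl⟩ := hX
    exact circ_map G K Y (hF.1 Y (Multiset.mem_of_mem_erase hY))
  · rw [Multiset.countP_map, ← Multiset.countP_eq_card_filter]
    by_cases he : e ∈ K
    · have h1 : (F.erase (C.subtype (· ∈ K))).countP (fun a => e ∈ a.map (inc K)) =
          (F.erase (C.subtype (· ∈ K))).countP (fun a => (⟨e, he⟩ : {e // e ∈ K}) ∈ a) := by
        refine Multiset.countP_congr rfl fun X _ => propext ?_
        rw [mem_map]
        constructor
        · rintro ⟨a, ha, hae⟩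
          have : a = ⟨e, he⟩ := Subtype.ext hae
          rw [← this]; exact ha
        · intro h
          exact ⟨_, h, rfl⟩
      have h2 := hF.2 ⟨e, he⟩
      rw [← Multiset.cons_erase hCF, Multiset.countP_cons] at h2
      rw [h1]
      by_cases heC : e ∈ C
      · rw [if_pos (mem_subtype.2 heC)] at h2
        rw [if_pos heC]
        omega
      · rw [if_neg (fun h => heC (mem_subtype.1 h))] at h2
        rw [if_neg heC, if_pos]
        · omega
        · rw [hK, mem_union, mem_union] at he
          tauto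
    · have h1 : (F.erase (C.subtype (· ∈ K))).countP (fun a => e ∈ a.map (inc K)) = 0 := by
        rw [Multiset.countP_eq_zero]
        intro X _ h
        rw [mem_map] at h
        obtain ⟨a, _, hae⟩ := h
        exact he (hae ▸ a.2)
      rw [h1]
      have h2 : e ∉ C ∧ ¬ (e ∈ A ∨ e ∈ B) := by
        rw [hK, mem_union, mem_union] at he
        tauto
      rw [if_neg h2.1, if_neg h2.2]

/-- several levels -/
theorem levels (G : MGraph V E) (C : Finset E) (hC : IsCircuit G C) (n : ℕ)
    (A B : Fin n → Finset E) (hA : ∀ j, Ev G (A j)) (hB : ∀ j, Ev G (B j)) (w : E → ℕ)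
    (hwC : ∀ e ∈ C, w e = n)
    (hw : ∀ e, e ∉ C → w e = 2 * (univ.filter fun j => e ∈ A j ∨ e ∈ B j).card) :
    ∃ F : Multiset (Finset E), (∀ X ∈ F, IsCircuit G X) ∧
      ∀ e, F.countP (fun X => e ∈ X) = w e := by
  classical
  choose F hF1 hF2 using fun j => level G C (A j) (B j) hC (hA j) (hB j)
  refine ⟨∑ j, F j, ?_, fun e => ?_⟩
  · intro X hX
    rw [Multiset.mem_sum] at hX
    obtain ⟨j, _, hj⟩ := hX
    exact hF1 j X hj
  · rw [Pool.Agent.W831.HI.countP_sum, sum_congr rfl fun j _ => hF2 j e]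
    by_cases he : e ∈ C
    · simp only [if_pos he]
      rw [hwC e he]
      simp
    · simp only [if_neg he]
      rw [hw e he, card_filter, mul_sum]
      refine sum_congr rfl fun j _ => ?_
      by_cases h : e ∈ A j ∨ e ∈ B j
      · rw [if_pos h, if_pos h, mul_one]
      · rw [if_neg h, if_neg h, mul_zero]

theorem z2_cases (x : ZMod 2) : x = 0 ∨ x = 1 := by
  revert x; decide

/-- a function on the edges which satisfies Kirchhoff's law off `C` gives an even subgraph -/
theorem ev_of_kirchhoff (G : MGraph V E) (C : Finset E) (hC : IsCircuit G C) (a : E → ZMod 2)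
    (ha : ∀ v, dg G C v = 0 → ∑ e, (if v ∈ G.ends e then a e else 0) = 0) :
    ∃ A : Finset E, Ev G A ∧ ∀ e, e ∉ C → (e ∈ A ↔ a e ≠ 0) := by
  classical
  obtain ⟨M, hM⟩ : ∃ M : Finset E, ∀ e, e ∈ M ↔ e ∉ C ∧ a e ≠ 0 :=
    ⟨univ.filter (fun f => f ∉ C ∧ a f ≠ 0), by intro e; simp⟩
  obtain ⟨J, hJC, hJ⟩ := circ_complete G C M hC (by
    rw [disjoint_left]
    intro e he h
    exact ((hM e).1 h).1 he) (by
    intro v hv
    rw [Pool.Agent.Helper998.Near.even_iff_cast, dg_cast]
    refine Eq.trans ?_ (ha v hv)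
    refine sum_congr rfl fun e _ => ?_
    by_cases h2 : v ∈ G.ends e
    · rw [if_pos h2, if_pos h2]
      have heC : e ∉ C := by
        intro he
        have := dg_pos_of_mem (G := G) he h2
        omega
      rcases z2_cases (a e) with h3 | h3
      · rw [if_neg (fun h4 => ((hM e).1 h4).2 h3), h3]
      · rw [if_pos ((hM e).2 ⟨heC, by rw [h3]; decide⟩), h3]
    · rw [if_neg h2, if_neg h2])
  refine ⟨M ∪ J, hJ, fun e he => ?_⟩
  rw [mem_union, hM]
  constructor
  · rintro (h | h)
    · exact h.2
    · exact absurd (hJC h) he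
  · intro h
    exact Or.inl ⟨he, h⟩

/-- covers from functions with Kirchhoff's law off `C` -/
theorem of_flow {K : Type} [Field K] [DecidableEq K] (p q : K →+ ZMod 2)
    (hpq : ∀ x, p x = 0 → q x = 0 → x = 0)
    (G : MGraph V E) (C : Finset E) (hC : IsCircuit G C) (n : ℕ)
    (φ : E → Fin n → K)
    (hφ : ∀ v, dg G C v = 0 → ∀ j, ∑ e, (if v ∈ G.ends e then φ e j else 0) = 0) (w : E → ℕ)
    (hwC : ∀ e ∈ C, w e = n)
    (hw : ∀ e, e ∉ C → w e = 2 * (univ.filter fun j => φ e j ≠ 0).card) :
    ∃ F : Multiset (Finset E), (∀ X ∈ F, IsCircuit G X) ∧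
      ∀ e, F.countP (fun X => e ∈ X) = w e := by
  classical
  have hom : ∀ r : K →+ ZMod 2, ∀ j v, dg G C v = 0 →
      ∑ e, (if v ∈ G.ends e then r (φ e j) else 0) = 0 := by
    intro r j v hv
    have h := congrArg r (hφ v hv j)
    rw [map_sum, map_zero] at h
    refine Eq.trans (sum_congr rfl fun e _ => ?_) h
    by_cases h2 : v ∈ G.ends e
    · rw [if_pos h2, if_pos h2]
    · rw [if_neg h2, if_neg h2, map_zero]
  choose A hA1 hA2 using fun j => ev_of_kirchhoff G C hC (fun e => p (φ e j)) (hom p j)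
  choose B hB1 hB2 using fun j => ev_of_kirchhoff G C hC (fun e => q (φ e j)) (hom q j)
  refine levels G C hC n A B hA1 hB1 w hwC fun e he => ?_
  rw [hw e he]
  congr 2
  ext j
  rw [mem_filter, mem_filter, hA2 j e he, hB2 j e he]
  constructor
  · rintro ⟨_, h⟩
    refine ⟨mem_univ _, ?_⟩
    by_contra hcon
    rw [not_or, not_not, not_not] at hcon
    exact h (hpq _ hcon.1 hcon.2)
  · rintro ⟨_, h⟩
    refine ⟨mem_univ _, ?_⟩
    intro h0
    rw [h0, map_zero, map_zero] at h
    rcases h with h | h <;> exact h rfl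

end Pool.Agent.H281G
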